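import Pool.Agent.MP_e5fd74_lc.Mg.H46_Rad

open Pool.Agent.MP_e5fd74_lc.H66

/-- Both threshold problems for the span of simple configurations in 3-space of fixed-angle chains
are strongly NP-hard, with angles coded as rational numbers of radians, as rational multiples of
`π / k`, or by rational cosines. -/
theorem Pool.Agent.Results.MP_e5fd74_lc.SpanStrongHardAll.result (ang : ℚ → ℝ)
    (hang : (ang = fun q : ℚ => (q : ℝ)) ∨
      (∃ k : ℕ, 0 < k ∧ ang = fun q : ℚ => (q : ℝ) * Real.pi / k) ∨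
      ang = fun q : ℚ => Real.arccos q) :
    (∀ L ∈ N68a2faeb.NP, ∃ (f : List Bool → Inst) (p : Polynomial ℕ), N68a2faeb.IsPolyTime f ∧
      ∀ x, Valid ang (f x) ∧ Small (p.eval x.length) (f x) ∧
        (L x = true ↔ ∃ d ∈ Spans ang (f x), ((f x).2.2 : ℝ) ≤ d)) ∧
    (∀ L ∈ N68a2faeb.NP, ∃ (f : List Bool → Inst) (p : Polynomial ℕ), N68a2faeb.IsPolyTime f ∧
      ∀ x, Valid ang (f x) ∧ Small (p.eval x.length) (f x) ∧
        (L x = true ↔ ∃ d ∈ Spans ang (f x), d ≤ ((f x).2.2 : ℝ))) := by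
  rcases hang with rfl | hang
  · exact ⟨Pool.Agent.MP_e5fd74_lc.H46.hard_rad (e := 0) (by norm_num)
        (Q := fun I => ∃ d ∈ Spans (fun q : ℚ => (q : ℝ)) I, (I.2.2 : ℝ) ≤ d)
        (fun _ h => (Pool.Agent.MP_e5fd74_lc.H46.instR_iff h).1),
      Pool.Agent.MP_e5fd74_lc.H46.hard_rad (e := 1) le_rfl
        (Q := fun I => ∃ d ∈ Spans (fun q : ℚ => (q : ℝ)) I, d ≤ (I.2.2 : ℝ))
        (fun _ h => (Pool.Agent.MP_e5fd74_lc.H46.instR_iff h).2)⟩
  obtain ⟨C⟩ : Nonempty (Cd ang) := by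
    rcases hang with ⟨k, hk, rfl⟩ | rfl
    · exact cd_deg k hk
    · exact cd_cos
  exact ⟨hard_of_cd C (Or.inl rfl) (Q := fun I => ∃ d ∈ Spans ang I, (I.2.2 : ℝ) ≤ d)
      (fun _ h => (inst_iff C h).1),
    hard_of_cd C (Or.inr rfl) (Q := fun I => ∃ d ∈ Spans ang I, d ≤ (I.2.2 : ℝ))
      (fun _ h => (inst_iff C h).2)⟩
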